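import Mathlib
import Pool.Agent.T9h72.KU.Spec

/-!
# Project KU, job LAW: the law of `g(U)` is a symmetric unimodal parent
-/

set_option autoImplicit false

namespace Pool.Agent.T9h41.KU

open MeasureTheory ProbabilityTheory Set Filter Topology Pool.Agent.R190.KR Pool.Agent.T9h72.KU
open scoped ENNReal

section
variable {g d : ℝ → ℝ} {B β : ℝ} (h : GoodQ g d B β)

include h in
theorem lt_aux {x y : ℝ} (hx : 1 / 2 ≤ x) (hxy : x < y) (hy : y < 1) (hβ : β ∉ Ioo x y) :
    g x < g y := by
  have h1 : StrictMonoOn g (Icc x y) := by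
    apply strictMonoOn_of_deriv_pos (convex_Icc x y)
      (h.cont.mono fun z hz => ⟨hx.trans hz.1, hz.2.trans_lt hy⟩)
    intro z hz
    rw [interior_Icc] at hz
    have hz' : z ∈ Ioo (1 / 2 : ℝ) 1 := ⟨hx.trans_lt hz.1, hz.2.trans hy⟩
    have hne : z ≠ β := fun e => hβ (e ▸ hz)
    rw [(h.der z hz' hne).deriv]
    exact h.dpos z hz'
  exact h1 ⟨le_rfl, hxy.le⟩ ⟨hxy.le, le_rfl⟩ hxy

include h in
theorem mono_right : StrictMonoOn g (Ico (1 / 2) 1) := by
  intro x hx y hy hxy
  by_cases hβ : β ∈ Ioo x y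
  · have h1 : g x < g β := lt_aux h hx.1 hβ.1 (hβ.2.trans hy.2) (fun h' => lt_irrefl _ h'.2)
    have h2 : g β < g y := lt_aux h (hx.1.trans hβ.1.le) hβ.2 hy.2 (fun h' => lt_irrefl _ h'.1)
    exact h1.trans h2
  · exact lt_aux h hx.1 hxy hy.2 hβ

include h in
theorem g_half : g (1 / 2) = 0 := by
  have := h.odd (1 / 2) ⟨by norm_num, by norm_num⟩
  norm_num at this
  norm_num
  linarith

include h in
theorem g_pos {x : ℝ} (hx : 1 / 2 < x) (h1 : x < 1) : 0 < g x := by
  have h2 := mono_right h (a := 1 / 2) ⟨le_rfl, by norm_num⟩ ⟨hx.le, h1⟩ hx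
  rwa [g_half h] at h2

include h in
theorem mono_all : StrictMonoOn g (Ioo 0 1) := by
  intro x hx y hy hxy
  rcases le_or_gt (1 / 2) x with h1 | h1
  · exact mono_right h ⟨h1, hx.2⟩ ⟨h1.trans hxy.le, hy.2⟩ hxy
  · rcases le_or_gt y (1 / 2) with h2 | h2
    · have h3 : g (1 - y) < g (1 - x) := mono_right h ⟨by linarith, by linarith [hy.1]⟩
        ⟨by linarith, by linarith [hx.1]⟩ (by linarith)
      rw [h.odd x hx, h.odd y hy] at h3
      linarith
    · have h3 : 0 < g (1 - x) := g_pos h (by linarith) (by linarith [hx.1])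
      rw [h.odd x hx] at h3
      have h4 : 0 < g y := g_pos h h2 hy.2
      linarith

/-- the density as a function of the value of the distribution function -/
noncomputable def qf (d : ℝ → ℝ) (y : ℝ) : ℝ≥0∞ :=
  if y ≤ 1 / 2 then ⊤ else if y < 1 then ENNReal.ofReal (1 / d y) else 0

include h in
theorem qf_anti : Antitone (qf d) := by
  intro x y hxy
  unfold qf
  by_cases hx : x ≤ 1 / 2
  · rw [if_pos hx]
    exact le_top
  · have hy : ¬ y ≤ 1 / 2 := fun h' => hx (hxy.trans h')
    rw [if_neg hx, if_neg hy]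
    by_cases hy1 : y < 1
    · have hx1 : x < 1 := hxy.trans_lt hy1
      rw [if_pos hy1, if_pos hx1]
      push Not at hx hy
      apply ENNReal.ofReal_le_ofReal
      exact one_div_le_one_div_of_le (h.dpos x ⟨hx, hx1⟩) (h.dmono ⟨hx, hx1⟩ ⟨hy, hy1⟩ hxy)
    · rw [if_neg hy1]
      exact bot_le

/-- the law of `g(U)` -/
noncomputable abbrev law0 (g : ℝ → ℝ) : Measure ℝ := (volume.restrict (Ioo (0 : ℝ) 1)).map g

/-- the density -/
noncomputable def pf (g d : ℝ → ℝ) (t : ℝ) : ℝ≥0∞ := qf d (cdf (law0 g) |t|)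

include h in
theorem pf_meas : Measurable (pf g d) := by
  unfold pf
  exact (qf_anti h).measurable.comp ((monotone_cdf (law0 g)).measurable.comp continuous_abs.measurable)

theorem pf_neg (t : ℝ) : pf g d (-t) = pf g d t := by
  unfold pf
  rw [abs_neg]

include h in
theorem pf_apply {x : ℝ} (hx : 1 / 2 < x) (h1 : x < 1) :
    pf g d (g x) = ENNReal.ofReal (1 / d x) := by
  unfold pf
  rw [abs_of_pos (g_pos h hx h1), cdf_map_apply h.meas (mono_all h) ⟨by linarith, h1⟩, qf,
    if_neg (not_le.2 hx), if_pos h1]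

include h in
theorem pf_zero {t : ℝ} (ht : 0 < t) (hn : t ∉ g '' (Ioo (1 / 2) 1)) : pf g d t = 0 := by
  have hF : ¬ cdf (law0 g) t < 1 := by
    intro hlt
    have h0 : 0 ≤ cdf (law0 g) t := cdf_nonneg _ _
    obtain ⟨y, hy1, hy2⟩ : ∃ y, max (1 / 2) (cdf (law0 g) t) < y ∧ y < 1 :=
      exists_between (max_lt (by norm_num) hlt)
    have hy3 : 1 / 2 < y := (le_max_left _ _).trans_lt hy1
    have hy4 : cdf (law0 g) t < y := (le_max_right _ _).trans_lt hy1
    have hgy : t < g y := by
      by_contra hle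
      push Not at hle
      have h5 := monotone_cdf (law0 g) hle
      rw [cdf_map_apply h.meas (mono_all h) ⟨by linarith, hy2⟩] at h5
      linarith
    have hIVT := intermediate_value_Icc hy3.le
      (h.cont.mono fun z hz => ⟨hz.1, hz.2.trans_lt hy2⟩)
    obtain ⟨z, hz, hzt⟩ := hIVT ⟨(g_half h).le.trans ht.le, hgy.le⟩
    apply hn
    refine ⟨z, ⟨lt_of_le_of_ne hz.1 ?_, hz.2.trans_lt hy2⟩, hzt⟩
    rintro rfl
    rw [g_half h] at hzt
    exact ht.ne hzt
  unfold pf qf
  rw [abs_of_pos ht, if_neg hF, if_neg]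
  intro hle
  exact hF (hle.trans_lt (by norm_num))

include h in
theorem pos_part {E : Set ℝ} (hE : MeasurableSet E) (hE0 : E ⊆ Ioi 0) :
    law0 g E = ∫⁻ t in E, pf g d t := by
  set s : Set ℝ := Ioo (1 / 2) 1 \ {β} with hs
  have hsm : MeasurableSet s := measurableSet_Ioo.diff (measurableSet_singleton β)
  have hs0 : s ⊆ Ioo 0 1 := fun x hx => ⟨by linarith [hx.1.1], hx.1.2⟩
  have hinj : InjOn g s := (mono_all h).injOn.mono hs0
  have him : MeasurableSet (g '' s) := hsm.image_of_measurable_injOn h.meas hinj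
  -- left hand side
  have hL : law0 g E = volume (g ⁻¹' E ∩ s) := by
    rw [law0, Measure.map_apply h.meas hE, Measure.restrict_apply' measurableSet_Ioo]
    have e1 : g ⁻¹' E ∩ Ioo 0 1 = g ⁻¹' E ∩ Ioo (1 / 2) 1 := by
      ext x
      simp only [mem_inter_iff, mem_preimage, mem_Ioo]
      constructor
      · rintro ⟨h1, h2, h3⟩
        refine ⟨h1, ?_, h3⟩
        by_contra hle
        push Not at hle
        have h4 : g x ≤ g (1 / 2) :=
          ((mono_all h).le_iff_le ⟨h2, h3⟩ ⟨by norm_num, by norm_num⟩).2 hle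
        rw [g_half h] at h4
        exact absurd (hE0 h1) (not_lt.2 h4)
      · rintro ⟨h1, h2, h3⟩
        exact ⟨h1, by linarith, h3⟩
    have e2 : g ⁻¹' E ∩ s = (g ⁻¹' E ∩ Ioo (1 / 2) 1) \ {β} := by
      rw [hs, inter_sdiff_assoc]
    rw [e1, e2, measure_sdiff_null (by simp)]
  -- right hand side
  have hR : ∫⁻ t in E, pf g d t = ∫⁻ t in g '' s, E.indicator (pf g d) t := by
    rw [← lintegral_indicator hE, ← lintegral_indicator him]
    apply lintegral_congr_ae
    have hβ : ∀ᵐ t : ℝ, t ≠ g β := by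
      rw [ae_iff]
      simp
    filter_upwards [hβ] with t ht
    by_cases h1 : t ∈ g '' s
    · rw [indicator_of_mem h1]
    · rw [indicator_of_notMem h1]
      by_cases h2 : t ∈ E
      · rw [indicator_of_mem h2]
        apply pf_zero h (hE0 h2)
        rintro ⟨x, hx, rfl⟩
        exact h1 ⟨x, ⟨hx, fun e => ht (by rw [mem_singleton_iff.1 e])⟩, rfl⟩
      · rw [indicator_of_notMem h2]
  have hder : ∀ x ∈ s, HasDerivWithinAt g (d x) s x := fun x hx =>
    (h.der x hx.1 (fun e => hx.2 (mem_singleton_iff.2 e))).hasDerivWithinAt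
  rw [hL, hR, lintegral_image_eq_lintegral_abs_deriv_mul hsm hder hinj]
  have e3 : ∫⁻ x in s, ENNReal.ofReal |d x| * E.indicator (pf g d) (g x) =
      ∫⁻ x in s, (g ⁻¹' E).indicator 1 x := by
    apply setLIntegral_congr_fun hsm
    intro x hx
    dsimp only
    by_cases h1 : g x ∈ E
    · rw [indicator_of_mem h1, indicator_of_mem (show x ∈ g ⁻¹' E from h1), pf_apply h hx.1.1 hx.1.2,
        ← ENNReal.ofReal_mul (abs_nonneg _), abs_of_pos (h.dpos x hx.1),
        mul_one_div_cancel (h.dpos x hx.1).ne', ENNReal.ofReal_one, Pi.one_apply]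
    · rw [indicator_of_notMem h1, indicator_of_notMem (show x ∉ g ⁻¹' E from h1), mul_zero]
  rw [e3, lintegral_indicator_one (h.meas hE), Measure.restrict_apply (h.meas hE)]

include h in
theorem map_neg_law : (law0 g).map (fun t => -t) = law0 g := by
  have h1 := (symParent_map h.meas (mono_all h) h.bdd h.odd).symm
  rw [mean_map h.meas h.odd] at h1
  simpa using h1

include h in
theorem dens_eq : law0 g = volume.withDensity (pf g d) := by
  have hS := symParent_map h.meas (mono_all h) h.bdd h.odd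
  have hP := hS.prob
  have hat : ∀ t, law0 g {t} = 0 := noAtoms_of_continuous_cdf hS.cont
  ext E hE
  rw [withDensity_apply _ hE]
  have hneg : MeasurableSet ((fun t : ℝ => -t) ⁻¹' (E ∩ Iio 0)) :=
    measurable_neg (hE.inter measurableSet_Iio)
  have hsub : (fun t : ℝ => -t) ⁻¹' (E ∩ Iio 0) ⊆ Ioi 0 := by
    intro t ht
    have := ht.2
    simp only [mem_Iio] at this
    simp only [mem_Ioi]
    linarith
  have e1 := measure_inter_add_sdiff (μ := law0 g) E (measurableSet_Ioi (a := (0 : ℝ)))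
  have e2 := lintegral_inter_add_sdiff (μ := (volume : Measure ℝ)) (pf g d) E
    (measurableSet_Ioi (a := (0 : ℝ)))
  rw [← e1, ← e2, pos_part h (hE.inter measurableSet_Ioi) inter_subset_right]
  congr 1
  have e3 : E \ Ioi 0 = (E ∩ Iio 0) ∪ (E ∩ {0}) := by
    ext t
    rw [Set.mem_sdiff]
    simp only [mem_Ioi, not_lt, mem_union, mem_inter_iff, mem_Iio, mem_singleton_iff]
    constructor
    · rintro ⟨h1, h2⟩
      rcases h2.lt_or_eq with h3 | h3
      · exact Or.inl ⟨h1, h3⟩
      · exact Or.inr ⟨h1, h3⟩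
    · rintro (⟨h1, h2⟩ | ⟨h1, h2⟩)
      · exact ⟨h1, h2.le⟩
      · exact ⟨h1, h2.le⟩
  have e4 : law0 g (E \ Ioi 0) = law0 g (E ∩ Iio 0) := by
    apply le_antisymm
    · rw [e3]
      refine (measure_union_le _ _).trans ?_
      have : law0 g (E ∩ {0}) = 0 := measure_mono_null inter_subset_right (hat 0)
      rw [this, add_zero]
    · exact measure_mono (by rw [e3]; exact subset_union_left)
  have e5 : ∫⁻ t in E \ Ioi 0, pf g d t = ∫⁻ t in E ∩ Iio 0, pf g d t := by
    apply setLIntegral_congr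
    have e6 : volume ((E \ Ioi 0) \ (E ∩ Iio 0)) = 0 := by
      apply measure_mono_null (t := {(0 : ℝ)}) _ (by simp)
      intro t ht
      rw [e3] at ht
      rcases ht with ⟨h1 | h1, h2⟩
      · exact absurd h1 h2
      · exact h1.2
    have e7 : volume ((E ∩ Iio 0) \ (E \ Ioi 0)) = 0 := by
      rw [e3, sdiff_eq_empty.2 subset_union_left, measure_empty]
    exact (ae_le_set.2 e6).antisymm (ae_le_set.2 e7)
  rw [e4, e5]
  have e8 : law0 g (E ∩ Iio 0) = law0 g ((fun t : ℝ => -t) ⁻¹' (E ∩ Iio 0)) := by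
    conv_lhs => rw [← map_neg_law h]
    rw [Measure.map_apply measurable_neg (hE.inter measurableSet_Iio)]
  rw [e8, pos_part h hneg hsub]
  have e9 := (Measure.measurePreserving_neg (volume : Measure ℝ)).setLIntegral_comp_preimage
    (hE.inter (measurableSet_Iio (a := (0 : ℝ)))) (pf_meas h)
  rw [← e9]
  apply lintegral_congr
  intro t
  exact (pf_neg t).symm

end

theorem law : S_LAW := by
  intro g d B β h
  refine ⟨mono_all h, symParent_map h.meas (mono_all h) h.bdd h.odd, pf g d, pf_meas h,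
    dens_eq h, ?_, ?_⟩
  · rw [mean_map h.meas h.odd]
    intro s hs t ht hst
    have hs' : s < 0 := hs
    have ht' : t < 0 := ht
    unfold pf
    apply qf_anti h
    apply monotone_cdf
    rw [abs_of_neg hs', abs_of_neg ht']
    linarith
  · rw [mean_map h.meas h.odd]
    intro s hs t ht hst
    have hs' : 0 < s := hs
    have ht' : 0 < t := ht
    unfold pf
    apply qf_anti h
    apply monotone_cdf
    rw [abs_of_pos hs', abs_of_pos ht']
    exact hst

end Pool.Agent.T9h41.KU
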